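import Mathlib

/-! Definitions for the Sobolev gap problem: real reductive groups in the sense of Wallach,
Harish-Chandra modules, continuous norms, weights, the Sobolev gap. -/

open Matrix NormedSpace
open scoped Matrix

universe u

namespace Pool.Agent.H913.SGP

/-- Real `n × n` matrices. -/
abbrev Mat (n : ℕ) := Matrix (Fin n) (Fin n) ℝ

section Group

variable {n : ℕ}

/-- `GR` is cut out of `GL(n,ℝ)` by polynomial equations in the entries of the matrix. -/
def IsAlgebraic (GR : Subgroup (GL (Fin n) ℝ)) : Prop :=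
  ∃ S : Set (MvPolynomial (Fin n × Fin n) ℝ), ∀ g : GL (Fin n) ℝ,
    g ∈ GR ↔ ∀ f ∈ S, MvPolynomial.eval (fun ij => (g : Mat n) ij.1 ij.2) f = 0

/-- `GR` is stable under transposition. -/
def IsTransposeStable (GR : Subgroup (GL (Fin n) ℝ)) : Prop :=
  ∀ g ∈ GR, ∃ g' ∈ GR, (g' : Mat n) = (g : Mat n)ᵀ

variable {G : Type} [Group G] [TopologicalSpace G]

/-- `G` is a real reductive group in the sense of Wallach: `GR` is a Zariski closed subgroup of
`GL(n,ℝ)` stable under transposition, and `ρ` is a finite covering of an open subgroup of `GR` by `G`,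
that is, a continuous homomorphism to `GR` with finite kernel which maps open sets to open subsets of
`GR`. -/
def IsRealReductive (GR : Subgroup (GL (Fin n) ℝ)) (ρ : G →* GL (Fin n) ℝ) : Prop :=
  IsAlgebraic GR ∧ IsTransposeStable GR ∧ (∀ g, ρ g ∈ GR) ∧ Continuous ρ ∧
    Set.Finite {g | ρ g = 1} ∧
    ∀ U : Set G, IsOpen U → ∃ W : Set (GL (Fin n) ℝ), IsOpen W ∧ ρ '' U = W ∩ {g | g ∈ GR}

/-- The Lie algebra `𝔤` of `GR` (and of `G`): all `X` with `exp (tX)` in `GR` for all real `t`. -/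
abbrev LieAlg (GR : Subgroup (GL (Fin n) ℝ)) : Type :=
  {X : Mat n // ∀ t : ℝ, ∃ g ∈ GR, (g : Mat n) = exp (t • X)}

/-- `g` is an orthogonal matrix. -/
def IsOrthogonal (g : GL (Fin n) ℝ) : Prop := (g : Mat n)ᵀ * (g : Mat n) = 1

theorem IsOrthogonal.one : IsOrthogonal (1 : GL (Fin n) ℝ) := by simp [IsOrthogonal]

theorem IsOrthogonal.mul {g h : GL (Fin n) ℝ} (hg : IsOrthogonal g) (hh : IsOrthogonal h) :
    IsOrthogonal (g * h) := by
  unfold IsOrthogonal at *
  rw [Units.val_mul, Matrix.transpose_mul]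
  calc _ = (h : Mat n)ᵀ * ((g : Mat n)ᵀ * (g : Mat n)) * (h : Mat n) := by
        simp only [Matrix.mul_assoc]
    _ = 1 := by rw [hg, Matrix.mul_one, hh]

theorem IsOrthogonal.inv {g : GL (Fin n) ℝ} (hg : IsOrthogonal g) : IsOrthogonal g⁻¹ := by
  unfold IsOrthogonal at *
  have h2 : (g : Mat n) * ((g⁻¹ : GL (Fin n) ℝ) : Mat n) = 1 := Units.mul_inv g
  have h1 : ((g⁻¹ : GL (Fin n) ℝ) : Mat n) = (g : Mat n)ᵀ := by
    calc ((g⁻¹ : GL (Fin n) ℝ) : Mat n)
        = ((g : Mat n)ᵀ * (g : Mat n)) * ((g⁻¹ : GL (Fin n) ℝ) : Mat n) := by rw [hg, one_mul]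
      _ = (g : Mat n)ᵀ := by rw [mul_assoc, h2, mul_one]
  rw [h1, Matrix.transpose_transpose]
  exact mul_eq_one_comm.1 hg

/-- The orthogonal group. -/
def orthogonal (n : ℕ) : Subgroup (GL (Fin n) ℝ) where
  carrier := {g | IsOrthogonal g}
  one_mem' := IsOrthogonal.one
  mul_mem' := IsOrthogonal.mul
  inv_mem' := IsOrthogonal.inv

/-- The maximal compact subgroup `K` of `G`: all `g` with `ρ g` orthogonal. -/
abbrev maxCompact (ρ : G →* GL (Fin n) ℝ) : Subgroup G := (orthogonal n).comap ρ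

/-- `γ` is the one-parameter subgroup of `G` with velocity `X`. -/
def IsOneParam (ρ : G →* GL (Fin n) ℝ) (X : Mat n) (γ : ℝ → G) : Prop :=
  Continuous γ ∧ (∀ s t, γ (s + t) = γ s * γ t) ∧ ∀ t : ℝ, (ρ (γ t) : Mat n) = exp (t • X)

/-- `[X, Y]` -/
def bracket (X Y : Mat n) : Mat n := X * Y - Y * X

/-- `g X g⁻¹` -/
def conj (g : GL (Fin n) ℝ) (X : Mat n) : Mat n := (g : Mat n) * X * ((g⁻¹ : GL (Fin n) ℝ) : Mat n)

/-- `b` is a basis of the Lie algebra `𝔨` of `K` (the skew-symmetric elements of `𝔤`) in which `K` acts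
by orthogonal matrices, that is, an orthonormal basis for an `Ad(K)`-invariant inner product. -/
def IsInvBasis (GR : Subgroup (GL (Fin n) ℝ)) (ρ : G →* GL (Fin n) ℝ) {m : ℕ}
    (b : Fin m → LieAlg GR) : Prop :=
  (∀ i, (b i).1ᵀ = -(b i).1) ∧ LinearIndependent ℝ (fun i => (b i).1) ∧
    (∀ X : LieAlg GR, X.1ᵀ = -X.1 → X.1 ∈ Submodule.span ℝ (Set.range fun i => (b i).1)) ∧
    ∀ k ∈ maxCompact ρ, ∃ O : Matrix (Fin m) (Fin m) ℝ, Oᵀ * O = 1 ∧
      ∀ i, conj (ρ k) (b i).1 = ∑ j, O j i • (b j).1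

/-- A weight on `G`: a positive, locally bounded, submultiplicative function. -/
def IsWeight (w : G → ℝ) : Prop :=
  (∀ g, 0 < w g) ∧ (∀ g, ∃ U ∈ nhds g, ∃ C : ℝ, ∀ x ∈ U, w x ≤ C) ∧
    ∀ g h, w (g * h) ≤ w g * w h

end Group

section Modules

/-- A representation of a topological group on a complex vector space is locally finite and
continuous: every vector lies in a finite-dimensional invariant subspace, and the matrix coefficients
are continuous. -/
def IsLocFinCont {K : Type} [Group K] [TopologicalSpace K] {V : Type u} [AddCommGroup V]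
    [Module ℂ V] (κ : K →* Module.End ℂ V) : Prop :=
  (∀ v, FiniteDimensional ℂ (Submodule.span ℂ (Set.range fun k => κ k v))) ∧
    ∀ v (f : V →ₗ[ℂ] ℂ), Continuous fun k => f (κ k v)

/-- The only invariant subspaces are `0` and the whole space. -/
def IsIrreducible {K : Type} [Group K] {W : Type} [AddCommGroup W] [Module ℂ W]
    (τ : K →* Module.End ℂ W) : Prop :=
  ∀ U : Submodule ℂ W, (∀ k, ∀ v ∈ U, τ k v ∈ U) → U = ⊥ ∨ U = ⊤

/-- The space of `K`-homomorphisms from `τ` to `κ` (the span of all of them) is finite-dimensional. -/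
def FiniteMult {K : Type} [Group K] {V : Type u} [AddCommGroup V] [Module ℂ V]
    (κ : K →* Module.End ℂ V) {W : Type} [AddCommGroup W] [Module ℂ W] (τ : K →* Module.End ℂ W) :
    Prop :=
  FiniteDimensional ℂ (Submodule.span ℂ {T : W →ₗ[ℂ] V | ∀ k x, T (τ k x) = κ k (T x)})

/-- Every `K`-type (irreducible continuous finite-dimensional representation of `K`) has finite
multiplicity. -/
def IsAdmissible {K : Type} [Group K] [TopologicalSpace K] {V : Type u} [AddCommGroup V]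
    [Module ℂ V] (κ : K →* Module.End ℂ V) : Prop :=
  ∀ (m : ℕ) (τ : K →* Module.End ℂ (Fin m → ℂ)), IsLocFinCont τ → IsIrreducible τ → FiniteMult κ τ

/-- Finitely generated: some finite subset of `V` lies in no proper subspace which is stable under
the operators `a x`. -/
def IsFinGen {X : Type} {V : Type u} [AddCommGroup V] [Module ℂ V] (a : X → Module.End ℂ V) :
    Prop :=
  ∃ S : Finset V, ∀ W : Submodule ℂ V, (∀ x, ∀ v ∈ W, a x v ∈ W) → (S : Set V) ⊆ W → W = ⊤

variable {n : ℕ} {G : Type} [Group G] [TopologicalSpace G]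

/-- `a` is a representation of the Lie algebra `𝔤` on the complex vector space `V`. -/
def IsLieRep {GR : Subgroup (GL (Fin n) ℝ)} {V : Type u} [AddCommGroup V] [Module ℂ V]
    (a : LieAlg GR → Module.End ℂ V) : Prop :=
  (∀ X Y Z : LieAlg GR, Z.1 = X.1 + Y.1 → a Z = a X + a Y) ∧
    (∀ (c : ℝ) (X Z : LieAlg GR), Z.1 = c • X.1 → a Z = (c : ℂ) • a X) ∧
    ∀ X Y Z : LieAlg GR, Z.1 = bracket X.1 Y.1 → a Z = a X * a Y - a Y * a X

/-- `k X v = (Ad(k) X) k v`. -/
def IsCompatible {GR : Subgroup (GL (Fin n) ℝ)} {ρ : G →* GL (Fin n) ℝ} {V : Type u}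
    [AddCommGroup V] [Module ℂ V] (a : LieAlg GR → Module.End ℂ V)
    (κ : maxCompact ρ →* Module.End ℂ V) : Prop :=
  ∀ (k : maxCompact ρ) (X Z : LieAlg GR), Z.1 = conj (ρ k.1) X.1 → κ k * a X = a Z * κ k

/-- The derivative of the action of `K` is the action of its Lie algebra. -/
def IsDerivative {GR : Subgroup (GL (Fin n) ℝ)} {ρ : G →* GL (Fin n) ℝ} {V : Type u}
    [AddCommGroup V] [Module ℂ V] (a : LieAlg GR → Module.End ℂ V)
    (κ : maxCompact ρ →* Module.End ℂ V) : Prop :=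
  ∀ (X : LieAlg GR) (γ : ℝ → G), IsOneParam ρ X.1 γ → ∀ (hγ : ∀ t, γ t ∈ maxCompact ρ) (v : V)
    (f : V →ₗ[ℂ] ℂ), HasDerivAt (fun t : ℝ => f (κ ⟨γ t, hγ t⟩ v)) (f (a X v)) 0

/-- A Harish-Chandra module: a `(𝔤, K)`-module which is finitely generated over the enveloping algebra
of `𝔤` and in which every `K`-type has finite multiplicity. -/
structure HCModule (GR : Subgroup (GL (Fin n) ℝ)) (ρ : G →* GL (Fin n) ℝ) (V : Type u)
    [AddCommGroup V] [Module ℂ V] where
  /-- the action of the Lie algebra -/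
  a : LieAlg GR → Module.End ℂ V
  /-- the action of `K` -/
  κ : maxCompact ρ →* Module.End ℂ V
  isLieRep : IsLieRep a
  isLocFinCont : IsLocFinCont κ
  isCompatible : IsCompatible a κ
  isDerivative : IsDerivative a κ
  isFinGen : IsFinGen a
  isAdmissible : IsAdmissible κ

end Modules

section Norms

variable {n : ℕ} {G : Type} [Group G] [TopologicalSpace G] {GR : Subgroup (GL (Fin n) ℝ)}
  {ρ : G →* GL (Fin n) ℝ} {V : Type u} [AddCommGroup V] [Module ℂ V]

/-- `ι` identifies `V` with the `(𝔤, K)`-module of `K`-finite vectors of the continuous representation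
`π` of `G` on the Banach space `E`, and `V` is dense in `E`. -/
structure IsGlobalization (Mo : HCModule GR ρ V) {E : Type u} [NormedAddCommGroup E]
    [NormedSpace ℂ E] (ι : V →ₗ[ℂ] E) (π : G →* (E →L[ℂ] E)) : Prop where
  injective : Function.Injective ι
  dense : DenseRange ι
  continuous : ∀ x, Continuous fun g => π g x
  intertwines_K : ∀ (k : maxCompact ρ) (v : V), π k.1 (ι v) = ι (Mo.κ k v)
  intertwines_lie : ∀ (X : LieAlg GR) (γ : ℝ → G), IsOneParam ρ X.1 γ → ∀ v : V,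
    HasDerivAt (fun t : ℝ => π (γ t) (ι v)) (ι (Mo.a X v)) 0
  K_finite : ∀ x : E,
    FiniteDimensional ℂ (Submodule.span ℂ (Set.range fun k : maxCompact ρ => π k.1 x)) →
      x ∈ Set.range ι

/-- `E` is a Banach space containing `V` as a dense subspace (so `E` is the completion of `V`) and
inducing the norm `p` on `V`, and it carries a continuous representation `π` of `G` whose `K`-finite
vectors are `V` as a `(𝔤, K)`-module, such that the operator norm of `π g` (which is the growth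
function `w_p`) is at most `C * w g` for some `C > 0`. -/
def IsRealizedOn (Mo : HCModule GR ρ V) (w : G → ℝ) (p : V → ℝ) (E : Type u)
    [NormedAddCommGroup E] [NormedSpace ℂ E] : Prop :=
  CompleteSpace E ∧ ∃ (ι : V →ₗ[ℂ] E) (π : G →* (E →L[ℂ] E)),
    IsGlobalization Mo ι π ∧ (∀ v, p v = ‖ι v‖) ∧ ∃ C : ℝ, 0 < C ∧ ∀ g, ‖π g‖ ≤ C * w g

/-- `p ∈ Norm(V, w)`: `p` is a norm on `V`, the completion `E` of `V` for `p` carries a continuous
representation of `G` whose `K`-finite vectors are `V` as a `(𝔤, K)`-module, and its growth function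
is at most `C * w` for some `C > 0`. -/
def IsNormIn (Mo : HCModule GR ρ V) (w : G → ℝ) (p : V → ℝ) : Prop :=
  ∃ (E : Type u) (_ : NormedAddCommGroup E) (_ : NormedSpace ℂ E), IsRealizedOn Mo w p E

/-- The `K`-Laplacian `Δ_K = -∑ bᵢ²` on `V`. -/
noncomputable def lap (Mo : HCModule GR ρ V) {m : ℕ} (b : Fin m → LieAlg GR) : Module.End ℂ V :=
  - ∑ i, Mo.a (b i) * Mo.a (b i)

/-- `T` is the operator `(1 + Δ_K)^(s/2)`: it is the scalar `(1+c)^(s/2)` on the eigenspace of
`Δ_K` for the eigenvalue `c`. -/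
def IsSobolevPow (Mo : HCModule GR ρ V) {m : ℕ} (b : Fin m → LieAlg GR) (s : ℝ)
    (T : Module.End ℂ V) : Prop :=
  ∀ (c : ℝ) (v : V), lap Mo b v = (c : ℂ) • v → T v = (((1 + c) ^ (s / 2) : ℝ) : ℂ) • v

/-- `p ≲ q`. -/
def NormLE (p q : V → ℝ) : Prop := ∃ C : ℝ, ∀ v, p v ≤ C * q v

/-- `p` represents the smallest class `[p_min]` of `Norm(V, w)`. -/
def IsMinNorm (Mo : HCModule GR ρ V) (w : G → ℝ) (p : V → ℝ) : Prop :=
  IsNormIn Mo w p ∧ ∀ q, IsNormIn Mo w q → NormLE p q

/-- `p` represents the largest class `[p_max]` of `Norm(V, w)`. -/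
def IsMaxNorm (Mo : HCModule GR ρ V) (w : G → ℝ) (p : V → ℝ) : Prop :=
  IsNormIn Mo w p ∧ ∀ q, IsNormIn Mo w q → NormLE q p

/-- The set of all `s ≥ 0` with `p_max ≲ (p_min)_s`, where `p_s v = p ((1 + Δ_K)^(s/2) v)`. -/
def gapSet (Mo : HCModule GR ρ V) {m : ℕ} (b : Fin m → LieAlg GR) (w : G → ℝ) : Set ℝ :=
  {s | 0 ≤ s ∧ ∃ T : Module.End ℂ V, IsSobolevPow Mo b s T ∧
    ∀ pmin pmax : V → ℝ, IsMinNorm Mo w pmin → IsMaxNorm Mo w pmax →
      NormLE pmax (fun v => pmin (T v))}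

/-- The Sobolev gap `s(V, w)`. -/
noncomputable def sobolevGap (Mo : HCModule GR ρ V) {m : ℕ} (b : Fin m → LieAlg GR) (w : G → ℝ) :
    ℝ := sInf (gapSet Mo b w)

end Norms

end Pool.Agent.H913.SGP
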