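import Pool.Agent.H913.SGP.Definitions
import Pool.Agent.H913.SG.Main

/-! From the definitions of `SGP.Definitions` to those used in the proof (`SG.Defs`). -/

open Matrix NormedSpace
open scoped Matrix

universe u

namespace Pool.Agent.H913.SGP

open Pool.Agent.H913

section

variable {n : ℕ} {G : Type} [Group G] [TopologicalSpace G] {GR : Subgroup (GL (Fin n) ℝ)}
  {ρ : G →* GL (Fin n) ℝ}

theorem toR_open (h : IsRealReductive GR ρ) :
    IsOpenMap (fun g => (⟨ρ g, h.2.2.1 g⟩ : GR)) := by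
  intro U hU
  obtain ⟨W, hW, hUW⟩ := h.2.2.2.2.2 U hU
  rw [isOpen_induced_iff]
  refine ⟨W, hW, ?_⟩
  ext x
  constructor
  · intro hx
    have : x.1 ∈ ρ '' U := by rw [hUW]; exact ⟨hx, x.2⟩
    obtain ⟨g, hg, hgx⟩ := this
    exact ⟨g, hg, Subtype.ext hgx⟩
  · rintro ⟨g, hg, rfl⟩
    have : ρ g ∈ ρ '' U := ⟨g, hg, rfl⟩
    rw [hUW] at this
    exact this.1

/-- the bundled version -/
def toR (h : IsRealReductive GR ρ) : SG.RealReductive G where
  n := n
  GR := GR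
  algebraic := h.1
  transpose_mem := h.2.1
  ρ := ρ
  ρ_mem := h.2.2.1
  ρ_continuous := h.2.2.2.1
  finite_ker := h.2.2.2.2.1
  isOpenMap := toR_open h

theorem toR_K (h : IsRealReductive GR ρ) : (toR h).K = maxCompact ρ := rfl

def toLie (h : IsRealReductive GR ρ) (X : LieAlg GR) : (toR h).lie := ⟨X.1, X.2⟩

def ofLie (h : IsRealReductive GR ρ) (X : (toR h).lie) : LieAlg GR := ⟨X.1, X.2⟩

variable {V : Type u} [AddCommGroup V] [Module ℂ V]

theorem toMo_adm (h : IsRealReductive GR ρ) (Mo : HCModule GR ρ V) :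
    SG.IsAdmissible (R := toR h) Mo.κ := by
  intro m τ hτ hirr
  have h1 := Mo.isAdmissible m τ ⟨fun v => inferInstance, hτ⟩ hirr
  have h2 : SG.homK (toR h) Mo.κ τ =
      Submodule.span ℂ {T : (Fin m → ℂ) →ₗ[ℂ] V | ∀ k x, T (τ k x) = Mo.κ k (T x)} := by
    have h3 : {T : (Fin m → ℂ) →ₗ[ℂ] V | ∀ k x, T (τ k x) = Mo.κ k (T x)} =
        (SG.homK (toR h) Mo.κ τ : Set ((Fin m → ℂ) →ₗ[ℂ] V)) := by
      ext T
      constructor
      · intro hT k
        exact LinearMap.ext fun x => hT k x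
      · intro hT k x
        exact LinearMap.congr_fun (hT k) x
    rw [h3, Submodule.span_eq]
  rw [h2]
  exact h1

theorem toR_Ad (h : IsRealReductive GR ρ) (g : G) (X : (toR h).lie) :
    (ofLie h ((toR h).Ad g X)).1 = conj (ρ g) (ofLie h X).1 := by
  have e : (ρ g)⁻¹ = ρ g⁻¹ := (map_inv ρ g).symm
  unfold conj
  rw [e]
  rfl

/-- the bundled module -/
def toMo (h : IsRealReductive GR ρ) (Mo : HCModule GR ρ V) : SG.HCModule (toR h) V where
  act := fun X => Mo.a (ofLie h X)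
  act_add := fun X Y => Mo.isLieRep.1 _ _ _ rfl
  act_smul := fun c X => Mo.isLieRep.2.1 c _ _ rfl
  act_lie := fun X Y => Mo.isLieRep.2.2 _ _ _ rfl
  kact := Mo.κ
  kfinite := Mo.isLocFinCont.1
  kcont := Mo.isLocFinCont.2
  compat := fun k X => Mo.isCompatible k (ofLie h X) (ofLie h ((toR h).Ad k.1 X)) (toR_Ad h k.1 X)
  deriv := fun X γ hγ h' v f => Mo.isDerivative (ofLie h X) γ hγ h' v f
  fg := by
    obtain ⟨S, hS⟩ := Mo.isFinGen
    exact ⟨S, fun W hW hSW => hS W (fun X v hv => hW (toLie h X) v hv) hSW⟩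
  admissible := toMo_adm h Mo

/-- the bundled basis -/
def toB (h : IsRealReductive GR ρ) {m : ℕ} {b : Fin m → LieAlg GR} (hb : IsInvBasis GR ρ b) :
    (toR h).InvBasis where
  m := m
  b := fun i => toLie h (b i)
  skew := hb.1
  linInd := by
    apply LinearIndependent.of_comp ((toR h).lie.subtype)
    exact hb.2.1
  spans := by
    intro X hX
    have h1 : X.1 ∈ Submodule.span ℝ (Set.range fun i => (toLie h (b i)).1) :=
      hb.2.2.1 (ofLie h X) hX
    have h2 : (Set.range fun i => (toLie h (b i)).1) = ((toR h).lie.subtype) '' (Set.range fun i =>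
        toLie h (b i)) := by
      rw [← Set.range_comp]
      rfl
    rw [h2, Submodule.span_image] at h1
    obtain ⟨Y, hY, hYX⟩ := h1
    have : Y = X := Subtype.ext hYX
    rwa [← this]
  invariant := by
    intro k hk
    obtain ⟨O, hO, hO'⟩ := hb.2.2.2 k hk
    refine ⟨O, hO, fun i => ?_⟩
    apply Subtype.ext
    have h1 : ((toR h).Ad k (toLie h (b i))).1 = ∑ j, O j i • (toLie h (b j)).1 :=
      (toR_Ad h k (toLie h (b i))).trans (hO' i)
    rw [h1, Submodule.coe_sum]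
    rfl

theorem toNorm (h : IsRealReductive GR ρ) (Mo : HCModule GR ρ V) (w : G → ℝ) (p : V → ℝ) :
    IsNormIn Mo w p ↔ SG.IsNormIn (toMo h Mo) w p := by
  constructor
  · rintro ⟨E, i1, i2, i3, ι, π, hG, hp, C, hC, hw⟩
    exact ⟨E, i1, i2, i3, ι, π, hG.injective, hG.dense, hp, hG.continuous, hG.intertwines_K,
      fun X γ hγ v => hG.intertwines_lie (ofLie h X) γ hγ v, hG.K_finite, C, hC, hw⟩
  · rintro ⟨E, i1, i2, i3, ι, π, h1, h2, h3, h4, h5, h6, h7, C, hC, hw⟩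
    exact ⟨E, i1, i2, i3, ι, π, ⟨h1, h2, h4, h5,
      fun X γ hγ v => h6 (toLie h X) γ hγ v, h7⟩, h3, C, hC, hw⟩

theorem toWeight {w : G → ℝ} (hw : IsWeight w) : SG.IsWeight w := ⟨hw.1, hw.2.1, hw.2.2⟩

theorem toLap (h : IsRealReductive GR ρ) (Mo : HCModule GR ρ V) {m : ℕ} {b : Fin m → LieAlg GR}
    (hb : IsInvBasis GR ρ b) : SG.lap (toMo h Mo) (toB h hb) = lap Mo b := rfl

theorem toPow (h : IsRealReductive GR ρ) (Mo : HCModule GR ρ V) {m : ℕ} {b : Fin m → LieAlg GR}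
    (hb : IsInvBasis GR ρ b) (s : ℝ) (T : Module.End ℂ V) :
    SG.IsSobolevPow (toMo h Mo) (toB h hb) s T ↔ IsSobolevPow Mo b s T := Iff.rfl

theorem main (h : IsRealReductive GR ρ) [IsTopologicalGroup G] [T2Space G]
    [SecondCountableTopology G] {m : ℕ} {b : Fin m → LieAlg GR} (hb : IsInvBasis GR ρ b)
    {w : G → ℝ} (hw : IsWeight w) :
    ∃ S : ℝ, 0 ≤ S ∧
      ∀ (V : Type u) [AddCommGroup V] [Module ℂ V] (Mo : HCModule GR ρ V),
        (∃ p, IsNormIn Mo w p) →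
        S ∈ gapSet Mo b w ∧ sobolevGap Mo b w ≤ S ∧
        ∃ T : Module.End ℂ V, IsSobolevPow Mo b S T ∧
          ∀ p q : V → ℝ, IsNormIn Mo w p → IsNormIn Mo w q → NormLE q (fun v => p (T v)) := by
  obtain ⟨S, hS, H⟩ := SG.all_final.{u} G (toR h) w (toWeight hw) (toB h hb)
  refine ⟨S, hS, ?_⟩
  intro V _ _ Mo ⟨p₀, hp₀⟩
  obtain ⟨-, -, T, hT, hpq⟩ := H V (toMo h Mo) ⟨p₀, (toNorm h Mo w p₀).1 hp₀⟩
  have hT' : IsSobolevPow Mo b S T := hT
  have hpq' : ∀ p q : V → ℝ, IsNormIn Mo w p → IsNormIn Mo w q →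
      NormLE q (fun v => p (T v)) := fun p q hp hq =>
    hpq p q ((toNorm h Mo w p).1 hp) ((toNorm h Mo w q).1 hq)
  have hmem : S ∈ gapSet Mo b w :=
    ⟨hS, T, hT', fun pmin pmax hmin hmax => hpq' pmin pmax hmin.1 hmax.1⟩
  exact ⟨hmem, csInf_le ⟨0, fun s hs => hs.1⟩ hmem, T, hT', hpq'⟩

end

end Pool.Agent.H913.SGP
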